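import Pool.Agent.H91.AvShad

set_option autoImplicit false

open H91.AvShad in
theorem Pool.Agent.Results.MP_090ff9_an.Q1True.result :
    ∀ (X : Type) [MetricSpace X] [CompactSpace X] [MeasurableSpace X] [BorelSpace X]
    (f : X → X), Continuous f → (ASP f ∨ AASP f ∨ AlmostSpec f) → center f = Set.univ →
    Mixing f ∨ 0 < Dynamics.coverEntropy f Set.univ :=
  fun X _ _ _ _ f h1 h2 h3 => (main X f h1 h2 h3).1
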